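import Pool.Agent.helper32.TRI.Spec

/-!
# Row tr:TE4 of MP_561ff4_al: the root elements `x_(c4 i)(1)` as words
-/

set_option autoImplicit false

open Finset

namespace Pool.Agent.TRI

open Pool.Agent.EXC

theorem TE4_sb : ∀ i : Fin 3, sb4 i = 1 ∨ sb4 i = -1 := by decide

theorem TE4_one (F : Type) [Field F] (k : Fin 24) (t : ℤ) :
    gw4 0 (1 : F) [(k, t)] = XG C4 (lt4 k) (t : F) := by
  unfold gw4
  rw [List.map_singleton, List.prod_singleton]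
  simp only [one_zpow, mul_one]

theorem TE4 (hWA4 : WA4_stmt) : TE4_stmt := by
  intro F _ i
  obtain ⟨-, hE2, hE3, -⟩ := g4_EXF F
  have ha : Ex C4 (E C4 (lt4 (bs4 i)) : Lm C4 F) := hE2 _ (lt4_root _).1
  have h01 : (1 : F) ≠ 0 := one_ne_zero
  have hg : gw4 0 (1 : F) (wd4 i) ∈ GE C4 F := (hWA4 F 0 1 h01 (wd4 i) []).1
  have hinv : gw4 0 (1 : F) (wi4 (wd4 i)) = (gw4 0 (1 : F) (wd4 i))⁻¹ := (hWA4 F 0 1 h01 (wd4 i) []).2.1
  have hmul : ∀ l l' : List (Fin 24 × ℤ), gw4 0 (1 : F) (l ++ l') = gw4 0 (1 : F) l * gw4 0 (1 : F) l' :=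
    fun l l' => (hWA4 F 0 1 h01 l l').2.2.1
  obtain ⟨-, -, hg1, -, -, -, -, hcj, -⟩ := hE3 _ ha
  have hga := hg1 _ hg
  obtain ⟨hX, -, -, hs1, -⟩ := hE3 _ hga
  have hs : (sb4 i : F) ≠ 0 := by
    rcases TE4_sb i with h | h <;> rw [h] <;> simp
  have hx := (g_XG F (lt4 (bs4 i)) (lt4_root _).1 (sb4 i : F)).1
  have htw : gw4 0 (1 : F) (tw4 i) =
      gw4 0 (1 : F) (wd4 i) * XG C4 (lt4 (bs4 i)) (sb4 i : F) * (gw4 0 (1 : F) (wd4 i))⁻¹ := by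
    unfold tw4
    rw [hmul, hmul, hinv, TE4_one]
  refine ⟨hs1 _ hs, ?_⟩
  intro v
  rw [htw]
  have h1 := hcj _ hg _ _ hx v
  rw [h1]
  have h2 := ((f_XAU 4 C4 F _ hX).2.2.2 (sb4 i : F)).2 1 v
  rw [mul_one] at h2
  unfold c4
  exact h2.symm

end Pool.Agent.TRI
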